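import Mathlib

/-!
# A two-cycle of the gamma-graph operator

`gammaGraph G` is the gamma-graph of `G`: its vertices are the minimum dominating sets of `G`, two
of them being adjacent iff one is obtained from the other by sliding one token along an edge of `G`.
We exhibit two non-isomorphic graphs `G`, `H` on 15 vertices such that the gamma-graph of `G` is
isomorphic to `H` and the gamma-graph of `H` is isomorphic to `G`.
-/

namespace Pool.Agent.Results.MP_b9dfd5_co.TwoCycle

/-- `S` is a dominating set of `G`: every vertex outside `S` has a neighbour in `S`. -/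
def Dominating {V : Type*} (G : SimpleGraph V) (S : Finset V) : Prop :=
  ∀ v, v ∉ S → ∃ u ∈ S, G.Adj u v

/-- `S` is a gamma-set of `G`: a dominating set of the least possible size. -/
def IsGammaSet {V : Type*} (G : SimpleGraph V) (S : Finset V) : Prop :=
  Dominating G S ∧ ∀ T : Finset V, Dominating G T → S.card ≤ T.card

/-- The gamma-graph of `G`: vertices are the gamma-sets of `G`; `S₁ ≠ S₂` are adjacent iff there are
`v ∈ S₁`, `w ∈ S₂` with `v w` an edge of `G` and `S₂ = (S₁ \ {v}) ∪ {w}`. -/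
def gammaGraph {V : Type*} [DecidableEq V] (G : SimpleGraph V) :
    SimpleGraph {S : Finset V // IsGammaSet G S} where
  Adj S T := S ≠ T ∧ ∃ v ∈ S.1, ∃ w ∈ T.1, G.Adj v w ∧ T.1 = insert w (S.1.erase v)
  symm := by
    constructor
    rintro S T ⟨hne, v, hv, w, hw, hvw, hT⟩
    have hwS : w ∉ S.1 := by
      intro hwS
      have hin : w ∈ S.1.erase v := Finset.mem_erase.2 ⟨hvw.ne', hwS⟩
      rw [Finset.insert_eq_of_mem hin] at hT
      have h1 := S.2.2 T.1 T.2.1
      have h2 : T.1.card < S.1.card := by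
        rw [hT]; exact Finset.card_erase_lt_of_mem hv
      omega
    refine ⟨hne.symm, w, hw, v, hv, hvw.symm, ?_⟩
    have h3 : w ∉ S.1.erase v := fun h => hwS (Finset.mem_of_mem_erase h)
    rw [hT, Finset.erase_insert h3, Finset.insert_erase hv]
  loopless := ⟨fun _ h => h.1 rfl⟩

/-- closed neighbourhoods (as bit masks) of the first graph -/
def nbG : List ℕ :=
  [16393, 8198, 9222, 17417, 18544, 18544, 18544, 13184, 13184, 13184, 7180, 23664, 16256, 13190,
    18553]

/-- closed neighbourhoods (as bit masks) of the second graph -/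
def nbH : List ℕ :=
  [17409, 8706, 18460, 18460, 18460, 12512, 12512, 12512, 7936, 9986, 18177, 18716, 12768, 13026,
    19485]

/-- the graph on `Fin 15` with given closed neighbourhoods -/
def ofMasks (nb : List ℕ)
    (hs : ∀ i j : Fin 15, (nb.getD i 0).testBit j = (nb.getD j 0).testBit i) :
    SimpleGraph (Fin 15) where
  Adj i j := i ≠ j ∧ (nb.getD i 0).testBit j = true
  symm := ⟨fun i j h => ⟨h.1.symm, by rw [← hs]; exact h.2⟩⟩
  loopless := ⟨fun _ h => h.1 rfl⟩

lemma symG : ∀ i j : Fin 15, (nbG.getD i 0).testBit j = (nbG.getD j 0).testBit i := by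
  decide +kernel

lemma symH : ∀ i j : Fin 15, (nbH.getD i 0).testBit j = (nbH.getD j 0).testBit i := by
  decide +kernel

/-- the first graph -/
def G : SimpleGraph (Fin 15) := ofMasks nbG symG

/-- the second graph -/
def H : SimpleGraph (Fin 15) := ofMasks nbH symH

instance (nb : List ℕ) (hs) : DecidableRel (ofMasks nb hs).Adj := fun i j =>
  inferInstanceAs (Decidable (i ≠ j ∧ (nb.getD i 0).testBit j = true))

instance : DecidableRel G.Adj := inferInstanceAs (DecidableRel (ofMasks nbG symG).Adj)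
instance : DecidableRel H.Adj := inferInstanceAs (DecidableRel (ofMasks nbH symH).Adj)

/-- the gamma-sets of `G`, as triples -/
def LG : List (Fin 15 × Fin 15 × Fin 15) :=
  [(0, 11, 13), (1, 12, 14), (3, 4, 13), (3, 5, 13), (3, 6, 13), (2, 7, 14), (2, 8, 14),
    (2, 9, 14), (10, 13, 14), (12, 13, 14), (11, 13, 14), (3, 13, 14), (2, 13, 14), (2, 12, 14),
    (3, 11, 13)]

/-- the gamma-sets of `H`, as triples -/
def LH : List (Fin 15 × Fin 15 × Fin 15) :=
  [(0, 11, 13), (1, 12, 14), (12, 13, 14), (11, 13, 14), (2, 10, 13), (3, 10, 13), (4, 10, 13),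
    (5, 9, 14), (6, 9, 14), (7, 9, 14), (8, 13, 14), (10, 13, 14), (9, 13, 14), (9, 12, 14),
    (10, 11, 13)]

/-- the set given by a triple -/
def tri (p : Fin 15 × Fin 15 × Fin 15) : Finset (Fin 15) := {p.1, p.2.1, p.2.2}

/-- the `i`-th set of a list -/
def nth (L : List (Fin 15 × Fin 15 × Fin 15)) (i : Fin 15) : Finset (Fin 15) :=
  tri (L.getD i (0, 0, 0))

lemma exists_triple (S : Finset (Fin 15)) (h : S.card ≤ 3) (h0 : S.Nonempty) :
    ∃ a b c : Fin 15, S = {a, b, c} := by
  have hp : 0 < S.card := h0.card_pos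
  have : S.card = 1 ∨ S.card = 2 ∨ S.card = 3 := by omega
  rcases this with h1 | h1 | h1
  · obtain ⟨a, rfl⟩ := Finset.card_eq_one.1 h1
    exact ⟨a, a, a, by simp⟩
  · obtain ⟨a, b, _, rfl⟩ := Finset.card_eq_two.1 h1
    exact ⟨a, b, b, by simp⟩
  · obtain ⟨a, b, c, _, _, _, rfl⟩ := Finset.card_eq_three.1 h1
    exact ⟨a, b, c, rfl⟩

/-- The abstract classification of gamma-sets from finitely checkable data. -/
lemma classify (K : SimpleGraph (Fin 15)) [DecidableRel K.Adj]
    (L : List (Fin 15 × Fin 15 × Fin 15))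
    (h1 : ∀ a b c : Fin 15, (∀ v : Fin 15, (v = a ∨ v = b ∨ v = c) ∨
      (K.Adj a v ∨ K.Adj b v ∨ K.Adj c v)) → ∃ i : Fin 15, ({a, b, c} : Finset (Fin 15)) = nth L i)
    (h2 : ∀ i : Fin 15, (nth L i).card = 3)
    (h3 : ∀ i v : Fin 15, v ∉ nth L i → ∃ u ∈ nth L i, K.Adj u v) (S : Finset (Fin 15)) :
    IsGammaSet K S ↔ ∃ i : Fin 15, S = nth L i := by
  have key : ∀ T : Finset (Fin 15), Dominating K T → T.card ≤ 3 → ∃ i : Fin 15, T = nth L i := by
    intro T hT hc
    have hne : T.Nonempty := by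
      by_contra hem
      rw [Finset.not_nonempty_iff_eq_empty] at hem
      subst hem
      obtain ⟨u, hu, _⟩ := hT 0 (by simp)
      simp at hu
    obtain ⟨a, b, c, rfl⟩ := exists_triple T hc hne
    apply h1
    intro v
    by_cases hv : v ∈ ({a, b, c} : Finset (Fin 15))
    · left; simpa using hv
    · right
      obtain ⟨u, hu, huv⟩ := hT v hv
      simp only [Finset.mem_insert, Finset.mem_singleton] at hu
      rcases hu with rfl | rfl | rfl
      · exact Or.inl huv
      · exact Or.inr (Or.inl huv)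
      · exact Or.inr (Or.inr huv)
  have dom : ∀ i, Dominating K (nth L i) := fun i v hv => h3 i v hv
  constructor
  · rintro ⟨hS, hmin⟩
    exact key S hS (by have := hmin _ (dom 0); rw [h2] at this; exact this)
  · rintro ⟨i, rfl⟩
    refine ⟨dom i, fun T hT => ?_⟩
    rw [h2]
    by_contra hlt
    obtain ⟨j, rfl⟩ := key T hT (by omega)
    rw [h2] at hlt
    omega

/-- The gamma-graph isomorphism from finitely checkable data. -/
lemma isoOf (K M : SimpleGraph (Fin 15)) [DecidableRel K.Adj]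
    (L : List (Fin 15 × Fin 15 × Fin 15))
    (hc : ∀ S : Finset (Fin 15), IsGammaSet K S ↔ ∃ i : Fin 15, S = nth L i)
    (hinj : ∀ i j : Fin 15, nth L i = nth L j → i = j)
    (hadj : ∀ i j : Fin 15, (nth L i ≠ nth L j ∧ ∃ v ∈ nth L i, ∃ w ∈ nth L j,
      K.Adj v w ∧ nth L j = insert w ((nth L i).erase v)) ↔ M.Adj i j) :
    Nonempty (gammaGraph K ≃g M) := by
  let f : Fin 15 → {S : Finset (Fin 15) // IsGammaSet K S} :=
    fun i => ⟨nth L i, (hc _).2 ⟨i, rfl⟩⟩
  have hf : Function.Bijective f := by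
    constructor
    · intro i j h
      exact hinj i j (congrArg Subtype.val h)
    · rintro ⟨S, hS⟩
      obtain ⟨i, hi⟩ := (hc S).1 hS
      exact ⟨i, Subtype.ext hi.symm⟩
  have e : M ≃g gammaGraph K :=
    { toEquiv := Equiv.ofBijective f hf
      map_rel_iff' := by
        intro i j
        rw [← hadj i j]
        show ((f i) ≠ (f j) ∧ _) ↔ _
        constructor
        · rintro ⟨h, h'⟩
          exact ⟨fun he => h (Subtype.ext he), h'⟩
        · rintro ⟨h, h'⟩
          exact ⟨fun he => h (congrArg Subtype.val he), h'⟩ }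
  exact ⟨e.symm⟩

lemma G1 : ∀ a b c : Fin 15, (∀ v : Fin 15, (v = a ∨ v = b ∨ v = c) ∨
      (G.Adj a v ∨ G.Adj b v ∨ G.Adj c v)) →
      ∃ i : Fin 15, ({a, b, c} : Finset (Fin 15)) = nth LG i := by
  decide +kernel

lemma G2 : ∀ i : Fin 15, (nth LG i).card = 3 := by decide +kernel

lemma G3 : ∀ i v : Fin 15, v ∉ nth LG i → ∃ u ∈ nth LG i, G.Adj u v := by decide +kernel

lemma G4 : ∀ i j : Fin 15, nth LG i = nth LG j → i = j := by decide +kernel

lemma G5 : ∀ i j : Fin 15, (nth LG i ≠ nth LG j ∧ ∃ v ∈ nth LG i, ∃ w ∈ nth LG j,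
      G.Adj v w ∧ nth LG j = insert w ((nth LG i).erase v)) ↔ H.Adj i j := by decide +kernel

lemma H1 : ∀ a b c : Fin 15, (∀ v : Fin 15, (v = a ∨ v = b ∨ v = c) ∨
      (H.Adj a v ∨ H.Adj b v ∨ H.Adj c v)) →
      ∃ i : Fin 15, ({a, b, c} : Finset (Fin 15)) = nth LH i := by
  decide +kernel

lemma H2 : ∀ i : Fin 15, (nth LH i).card = 3 := by decide +kernel

lemma H3 : ∀ i v : Fin 15, v ∉ nth LH i → ∃ u ∈ nth LH i, H.Adj u v := by decide +kernel

lemma H4 : ∀ i j : Fin 15, nth LH i = nth LH j → i = j := by decide +kernel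

lemma H5 : ∀ i j : Fin 15, (nth LH i ≠ nth LH j ∧ ∃ v ∈ nth LH i, ∃ w ∈ nth LH j,
      H.Adj v w ∧ nth LH j = insert w ((nth LH i).erase v)) ↔ G.Adj i j := by decide +kernel

lemma not_iso : IsEmpty (G ≃g H) := by
  constructor
  intro φ
  have h1 : ∃ v : Fin 15, G.degree v = 3 := by decide +kernel
  have h2 : ∀ v : Fin 15, H.degree v ≠ 3 := by decide +kernel
  obtain ⟨v, hv⟩ := h1
  apply h2 (φ v)
  rw [← hv]
  exact φ.degree_eq v

/-- There are two non-isomorphic graphs (on 15 vertices each) such that each of them is isomorphic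
to the gamma-graph of the other one. -/
theorem result : ∃ G H : SimpleGraph (Fin 15), IsEmpty (G ≃g H) ∧
    Nonempty (gammaGraph G ≃g H) ∧ Nonempty (gammaGraph H ≃g G) :=
  ⟨G, H, not_iso, isoOf G H LG (classify G LG G1 G2 G3) G4 G5,
    isoOf H G LH (classify H LH H1 H2 H3) H4 H5⟩

end Pool.Agent.Results.MP_b9dfd5_co.TwoCycle
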